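import Pool.Agent.Q248.GS.Often

/-!
# Topologically generic couplings
-/

set_option autoImplicit false

open Finset Filter Topology

namespace Pool.Agent.Q248.GS

open Pool.Agent.TH761.EB

variable {d : ℕ}

lemma ties_generic {B : Type} {K : Set ℝ} (hK : Perfect K) (T1 T2 : Finset B)
    (hdis : Disjoint T1 T2) (hne : ∃ e, e ∈ T1 ∨ e ∈ T2) :
    ∀ᶠ J in residual (B → K), ∑ e ∈ T1, (J e : ℝ) ≠ ∑ e ∈ T2, (J e : ℝ) := by
  classical
  apply residual_of_dense_open
  · exact isOpen_ne_fun (by fun_prop) (by fun_prop)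
  · intro J
    obtain ⟨e, he⟩ := hne
    by_cases hJ : ∑ e ∈ T1, (J e : ℝ) = ∑ e ∈ T2, (J e : ℝ)
    · have h1 : J e ∈ closure {y : K | y ≠ J e} := by
        rw [closure_subtype]
        have h2 := hK.acc (J e) (J e).2
        rw [accPt_iff_clusterPt, inf_principal, ← mem_closure_iff_clusterPt] at h2
        apply closure_mono _ h2
        rintro y ⟨hy1, hy2⟩
        exact ⟨⟨y, hy2⟩, fun h => hy1 (congrArg Subtype.val h), rfl⟩
      have hc : Continuous fun x : K => Function.update J e x := continuous_const.update e continuous_id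
      have h2 : J ∈ (fun x : K => Function.update J e x) '' closure {y : K | y ≠ J e} :=
        ⟨J e, h1, Function.update_eq_self e J⟩
      apply closure_mono _ (image_closure_subset_closure_image hc h2)
      rintro _ ⟨y, hy, rfl⟩
      rw [Set.mem_ofPred_eq]
      intro h3
      have hyr : (y : ℝ) ≠ J e := fun h => hy (Subtype.ext h)
      have hsum : ∀ T : Finset B, e ∈ T → ∑ f ∈ T, ((Function.update J e y) f : ℝ) =
          ∑ f ∈ T, (J f : ℝ) + (y - J e) := by
        intro T hT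
        rw [← add_sum_erase T _ hT, ← add_sum_erase T (fun f => (J f : ℝ)) hT]
        have : ∑ f ∈ T.erase e, ((Function.update J e y) f : ℝ) = ∑ f ∈ T.erase e, (J f : ℝ) :=
          sum_congr rfl fun f hf => by rw [Function.update_of_ne (ne_of_mem_erase hf)]
        rw [this, Function.update_self]
        ring
      have hsum' : ∀ T : Finset B, e ∉ T → ∑ f ∈ T, ((Function.update J e y) f : ℝ) =
          ∑ f ∈ T, (J f : ℝ) := by
        intro T hT
        refine sum_congr rfl fun f hf => ?_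
        rw [Function.update_of_ne]
        rintro rfl
        exact hT hf
      rcases he with he | he
      · rw [hsum T1 he, hsum' T2 (disjoint_left.1 hdis he), hJ] at h3
        apply hyr; linarith
      · rw [hsum T2 he, hsum' T1 (disjoint_right.1 hdis he), hJ] at h3
        apply hyr; linarith
    · exact subset_closure hJ

/-- the bonds of the sphere -/
lemma sph_finite (r : ℕ) : {e : (Fin d → ℤ) × Fin d | Sph r (aa e) ∧ Sph r (bb e)}.Finite := by
  have h1 : ({x : Fin d → ℤ | Sph r x} ×ˢ (Set.univ : Set (Fin d))).Finite := by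
    apply Set.Finite.prod _ Set.finite_univ
    apply (Set.finite_Icc (fun _ : Fin d => -(r : ℤ)) (fun _ => (r : ℤ))).subset
    intro x hx
    rw [Set.mem_Icc, Pi.le_def, Pi.le_def]
    exact ⟨fun i => (abs_le.1 (hx.1 i)).1, fun i => (abs_le.1 (hx.1 i)).2⟩
  apply h1.subset
  rintro e ⟨h, _⟩
  exact ⟨h, Set.mem_univ _⟩

/-- the bonds of the sphere -/
noncomputable def sb (d r : ℕ) : Finset ((Fin d → ℤ) × Fin d) := (sph_finite r).toFinset

lemma mem_sb {r : ℕ} {e : (Fin d → ℤ) × Fin d} : e ∈ sb d r ↔ Sph r (aa e) ∧ Sph r (bb e) := by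
  unfold sb
  rw [Set.Finite.mem_toFinset, Set.mem_ofPred_eq]

/-- the sphere is strong -/
def Strong (d r : ℕ) (J : (Fin d → ℤ) × Fin d → ℝ) : Prop :=
  ∀ e ∈ sb d r, 0 < J e ∧ ∀ f ∈ touch (sb d r), f ∉ sb d r →
    (4 * d * (sb d r).card : ℕ) * |J f| < J e

lemma Strong.agree (hd : 2 ≤ d) {J : (Fin d → ℤ) × Fin d → ℝ} {r : ℕ} (h : Strong d r J)
    {σ τ : (Fin d → ℤ) → ℝ} (hσ : GS aa bb Set.univ J σ) (hτ : GS aa bb Set.univ J τ) :
    ∃ s : ℝ, (s = 1 ∨ s = -1) ∧ ∀ x, Ball r x → σ x = s * τ x := by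
  classical
  obtain ⟨ε, hε0, hε1, hε2⟩ : ∃ ε : ℝ, 0 ≤ ε ∧ (∀ f ∈ touch (sb d r), f ∉ sb d r → |J f| ≤ ε) ∧
      ∀ e ∈ sb d r, (4 * d * (sb d r).card : ℕ) * ε < J e := by
    rcases (touch (sb d r) \ sb d r).eq_empty_or_nonempty with h0 | h0
    · refine ⟨0, le_rfl, fun f hf hf' => ?_, fun e he => ?_⟩
      · have : f ∈ touch (sb d r) \ sb d r := Finset.mem_sdiff.2 ⟨hf, hf'⟩
        rw [h0] at this
        simp at this
      · rw [mul_zero]; exact (h e he).1
    · obtain ⟨f₀, hf₀, hmax⟩ := exists_max_image _ (fun f => |J f|) h0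
      rw [Finset.mem_sdiff] at hf₀
      exact ⟨|J f₀|, abs_nonneg _, fun f hf hf' => hmax f (Finset.mem_sdiff.2 ⟨hf, hf'⟩),
        fun e he => (h e he).2 f₀ hf₀.1 hf₀.2⟩
  exact ball_agree hd hσ hτ r (sb d r) (A := (4 * d * (sb d r).card : ℕ) * ε) hε0 hε2 hε1 le_rfl
    (fun e h1 h2 hn => absurd (mem_sb.2 ⟨h1, h2⟩) hn)

lemma touch_sb_eventually (e : (Fin d → ℤ) × Fin d) :
    ∀ᶠ r in atTop, e ∉ touch (sb d r) := by
  filter_upwards [eventually_gt_atTop (univ.sup (fun i => (aa e i).natAbs) +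
    univ.sup (fun i => (bb e i).natAbs))] with r hr
  have hno : ∀ x : Fin d → ℤ, univ.sup (fun i => (x i).natAbs) < r → ¬ Sph r x := by
    rintro x hx ⟨_, i, hi⟩
    have h1 : (x i).natAbs ≤ univ.sup (fun i => (x i).natAbs) :=
      Finset.le_sup (f := fun i => (x i).natAbs) (mem_univ i)
    rw [Int.abs_eq_natAbs] at hi
    have : (x i).natAbs = r := by exact_mod_cast hi
    omega
  intro he
  rw [mem_touch] at he
  obtain ⟨f, hf, h⟩ := he
  rw [mem_sb] at hf
  rcases h with h | h | h | h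
  · exact hno (aa e) (by omega) (by rw [h]; exact hf.1)
  · exact hno (aa e) (by omega) (by rw [h]; exact hf.2)
  · exact hno (bb e) (by omega) (by rw [h]; exact hf.1)
  · exact hno (bb e) (by omega) (by rw [h]; exact hf.2)

lemma strong_generic {K : Set ℝ} (hK : ∀ N : ℕ, ∃ u ∈ K, ∃ v ∈ K, N * |u| < v) (n : ℕ) :
    ∀ᶠ J in residual ((Fin d → ℤ) × Fin d → K), ∃ r, n ≤ r ∧ Strong d r (fun e => (J e : ℝ)) := by
  classical
  have hset : {J : (Fin d → ℤ) × Fin d → K | ∃ r, n ≤ r ∧ Strong d r (fun e => (J e : ℝ))} =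
      ⋃ r ∈ Set.Ici n, {J : (Fin d → ℤ) × Fin d → K | Strong d r (fun e => (J e : ℝ))} := by
    ext J
    simp
  have hopen : IsOpen {J : (Fin d → ℤ) × Fin d → K | ∃ r, n ≤ r ∧ Strong d r (fun e => (J e : ℝ))} := by
    rw [hset]
    apply isOpen_biUnion
    intro r _
    have : {J : (Fin d → ℤ) × Fin d → K | Strong d r (fun e => (J e : ℝ))} =
        ⋂ e ∈ sb d r, ({J | 0 < (J e : ℝ)} ∩ ⋂ f ∈ touch (sb d r), {J | f ∉ sb d r →
          (4 * d * (sb d r).card : ℕ) * |(J f : ℝ)| < J e}) := by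
      ext J
      simp only [Strong, Set.mem_ofPred_eq, Set.mem_iInter, Set.mem_inter_iff]
    rw [this]
    apply isOpen_biInter_finset
    intro e _
    apply IsOpen.inter
    · exact isOpen_lt continuous_const (by fun_prop)
    · apply isOpen_biInter_finset
      intro f _
      by_cases hf : f ∈ sb d r
      · simp [hf]
      · simp only [hf, not_false_eq_true, forall_const]
        exact isOpen_lt (by fun_prop) (by fun_prop)
  apply residual_of_dense_open hopen
  intro J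
  choose u hu v hv huv using hK
  set N : ℕ → ℕ := fun r => 4 * d * (sb d r).card with hN
  set Jr : ℕ → ((Fin d → ℤ) × Fin d → K) := fun r e =>
    if e ∈ sb d r then ⟨v (N r), hv (N r)⟩ else if e ∈ touch (sb d r) then ⟨u (N r), hu (N r)⟩
    else J e with hJr
  apply mem_closure_of_tendsto (f := Jr) (b := atTop)
  · rw [tendsto_pi_nhds]
    intro e
    apply tendsto_const_nhds.congr'
    filter_upwards [touch_sb_eventually e] with r hr
    have h1 : e ∉ sb d r := fun h => hr (mem_touch.2 ⟨e, h, Or.inl rfl⟩)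
    simp only [hJr, h1, hr, if_false]
  · filter_upwards [eventually_ge_atTop n] with r hr
    refine ⟨r, hr, ?_⟩
    intro e he
    have h1 : (Jr r e : ℝ) = v (N r) := by simp only [hJr, he, if_true]
    refine ⟨?_, ?_⟩
    · show 0 < (Jr r e : ℝ)
      rw [h1]
      exact lt_of_le_of_lt (by positivity) (huv (N r))
    · intro f hf hf'
      have h2 : (Jr r f : ℝ) = u (N r) := by simp only [hJr, hf, hf', if_true, if_false]
      show (4 * d * (sb d r).card : ℕ) * |(Jr r f : ℝ)| < (Jr r e : ℝ)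
      rw [h1, h2]
      exact huv (N r)

lemma fib (x : Fin d → ℤ) : {e : (Fin d → ℤ) × Fin d | aa e = x ∨ bb e = x}.Finite := by
  apply (nb x).finite_toSet.subset
  intro e he
  exact mem_nb.2 he

lemma front (hd : 0 < d) (D : Finset (Fin d → ℤ)) (hD : D.Nonempty) :
    ∃ e : (Fin d → ℤ) × Fin d, aa e ∈ D ∧ bb e ∈ Set.univ ∧ bb e ∉ D := by
  obtain ⟨x, hx, hmax⟩ := exists_max_image D (fun x => x ⟨0, hd⟩) hD
  refine ⟨(x, ⟨0, hd⟩), hx, Set.mem_univ _, fun h => ?_⟩
  have h1 := hmax _ h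
  simp only [bb, Pi.add_apply, Pi.single_eq_same] at h1
  omega

theorem generic (hd : 2 ≤ d) {K : Set ℝ} (hK : Perfect K)
    (hr : ∀ N : ℕ, ∃ u ∈ K, ∃ v ∈ K, N * |u| < v) :
    ∀ᶠ J in residual ((Fin d → ℤ) × Fin d → K), ∃ σ : (Fin d → ℤ) → ℝ,
      {ρ | GS aa bb Set.univ (fun e => (J e : ℝ)) ρ} = {σ, -σ} := by
  classical
  have h1 : ∀ᶠ J in residual ((Fin d → ℤ) × Fin d → K), ∀ T : Finset ((Fin d → ℤ) × Fin d) ×
      Finset ((Fin d → ℤ) × Fin d), Disjoint T.1 T.2 → (∃ e, e ∈ T.1 ∨ e ∈ T.2) →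
      ∑ e ∈ T.1, (J e : ℝ) ≠ ∑ e ∈ T.2, (J e : ℝ) := by
    rw [eventually_countable_forall]
    intro T
    by_cases h : Disjoint T.1 T.2 ∧ ∃ e, e ∈ T.1 ∨ e ∈ T.2
    · filter_upwards [ties_generic hK T.1 T.2 h.1 h.2] with J hJ _ _
      exact hJ
    · exact Eventually.of_forall fun J h2 h3 => absurd ⟨h2, h3⟩ h
  have h2 : ∀ᶠ J in residual ((Fin d → ℤ) × Fin d → K), ∀ n : ℕ, ∃ r, n ≤ r ∧
      Strong d r (fun e => (J e : ℝ)) := by
    rw [eventually_countable_forall]
    exact fun n => strong_generic hr n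
  filter_upwards [h1, h2] with J hJ1 hJ2
  obtain ⟨σ, hσ⟩ := exists_gs (a := aa) (b := bb) (R := (Set.univ : Set (Fin d → ℤ))) fib
    (fun D hD _ => front (by omega) D hD) (J := fun e => (J e : ℝ))
    (fun T1 T2 h3 h4 => hJ1 (T1, T2) h3 h4)
  refine ⟨σ, ?_⟩
  ext ρ
  rw [Set.mem_ofPred_eq, Set.mem_insert_iff, Set.mem_singleton_iff]
  constructor
  · intro hρ
    apply glue (fun x => hσ.1.1 x (Set.mem_univ x))
    rw [frequently_atTop]
    intro n
    obtain ⟨r, hr1, hr2⟩ := hJ2 n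
    exact ⟨r, hr1, hr2.agree hd hσ hρ⟩
  · rintro (rfl | rfl)
    · exact hσ
    · exact hσ.neg

end Pool.Agent.Q248.GS
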