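import Pool.Agent.TH761.EB.Gen

/-!
# Strong bonds surrounded by weak bonds are satisfied in every ground state
-/

set_option autoImplicit false

open Finset

namespace Pool.Agent.Q248.GS

open Pool.Agent.TH761.EB

variable {X E : Type} {a b : E → X}

theorem flat {J : E → ℝ} {σ : X → ℝ} (hσ : GS a b Set.univ J σ)
    (Y T : Finset E)
    (hT : ∀ e, (∃ f ∈ Y, a e = a f ∨ a e = b f ∨ b e = a f ∨ b e = b f) → e ∈ T)
    {A ε : ℝ} (hε0 : 0 ≤ ε) (hY : ∀ e ∈ Y, A < J e) (hε : ∀ e ∈ T, e ∉ Y → |J e| ≤ ε)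
    (hA : (T.card : ℝ) * ε ≤ A) (e₀ : E) (he₀ : e₀ ∈ Y) : σ (a e₀) * σ (b e₀) = 1 := by
  classical
  have pm : ∀ x, σ x = 1 ∨ σ x = -1 := fun x => hσ.1.1 x (Set.mem_univ x)
  have hA0 : 0 ≤ A := le_trans (by positivity) hA
  by_contra hne
  set W : Finset X := Y.image a ∪ Y.image b with hW
  have haW : ∀ e ∈ Y, a e ∈ W := fun e he => mem_union_left _ (mem_image_of_mem a he)
  have hbW : ∀ e ∈ Y, b e ∈ W := fun e he => mem_union_right _ (mem_image_of_mem b he)
  set F : Finset X := W.filter (fun x => σ x = 1) with hF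
  have memF : ∀ x, x ∈ F ↔ x ∈ W ∧ σ x = 1 := fun x => by rw [hF, mem_filter]
  set ρ : X → ℝ := fun x => if x ∈ F then -σ x else σ x with hρ
  have hρF : ∀ x, x ∈ F → ρ x = -σ x := fun x hx => by simp only [hρ, hx, if_true]
  have hρN : ∀ x, x ∉ F → ρ x = σ x := fun x hx => by simp only [hρ, hx, if_false]
  have hTF : ∀ e, (a e ∈ F ∨ b e ∈ F) → e ∈ T := by
    intro e he
    apply hT
    have hmem : ∀ x, x ∈ W → ∃ f ∈ Y, x = a f ∨ x = b f := by
      intro x hx
      rw [hW, mem_union, mem_image, mem_image] at hx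
      rcases hx with ⟨f, hf, rfl⟩ | ⟨f, hf, rfl⟩
      · exact ⟨f, hf, Or.inl rfl⟩
      · exact ⟨f, hf, Or.inr rfl⟩
    rcases he with he | he
    · obtain ⟨f, hf, h⟩ := hmem _ ((memF _).1 he).1
      exact ⟨f, hf, by tauto⟩
    · obtain ⟨f, hf, h⟩ := hmem _ ((memF _).1 he).1
      exact ⟨f, hf, by tauto⟩
  set D : E → ℝ := fun e => J e * (σ (a e) * σ (b e) - ρ (a e) * ρ (b e)) with hD
  have hD0 : ∀ e, e ∉ T → D e = 0 := by
    intro e he
    have h1 : a e ∉ F := fun h => he (hTF e (Or.inl h))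
    have h2 : b e ∉ F := fun h => he (hTF e (Or.inr h))
    simp only [hD]
    rw [hρN _ h1, hρN _ h2, sub_self, mul_zero]
  have hsame : ∀ e, (a e ∈ F ↔ b e ∈ F) → D e = 0 := by
    intro e he
    simp only [hD]
    by_cases h : a e ∈ F
    · rw [hρF _ h, hρF _ (he.1 h)]; ring
    · rw [hρN _ h, hρN _ (fun h' => h (he.2 h'))]; ring
  have hdiff : ∀ e, ¬ (a e ∈ F ↔ b e ∈ F) → D e = 2 * (J e * (σ (a e) * σ (b e))) := by
    intro e he
    simp only [hD]
    by_cases h : a e ∈ F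
    · have h' : b e ∉ F := fun h' => he ⟨fun _ => h', fun _ => h⟩
      rw [hρF _ h, hρN _ h']; ring
    · have h' : b e ∈ F := by
        by_contra h'
        exact he ⟨fun x => absurd x h, fun x => absurd x h'⟩
      rw [hρN _ h, hρF _ h']; ring
  have hYd : ∀ e ∈ Y, ¬ (a e ∈ F ↔ b e ∈ F) → σ (a e) * σ (b e) = -1 := by
    intro e he hn
    rw [memF, memF] at hn
    have h1 := haW e he
    have h2 := hbW e he
    simp only [h1, h2, true_and] at hn
    rcases pm (a e) with h3 | h3 <;> rcases pm (b e) with h4 | h4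
    · exact absurd (by rw [h3, h4]) hn
    · rw [h3, h4]; norm_num
    · rw [h3, h4]; norm_num
    · exact absurd (by rw [h3, h4]) hn
  have he₀d : ¬ (a e₀ ∈ F ↔ b e₀ ∈ F) := by
    rw [memF, memF]
    simp only [haW e₀ he₀, hbW e₀ he₀, true_and]
    intro h
    apply hne
    rcases pm (a e₀) with h3 | h3 <;> rcases pm (b e₀) with h4 | h4
    · rw [h3, h4]; norm_num
    · have := h.1 h3; rw [h4] at this; norm_num at this
    · have := h.2 h4; rw [h3] at this; norm_num at this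
    · rw [h3, h4]; norm_num
  have hFne : ∃ x, x ∈ F := by
    by_contra hcon
    push Not at hcon
    exact he₀d ⟨fun h => absurd h (hcon _), fun h => absurd h (hcon _)⟩
  have hYle : ∀ e ∈ Y, D e ≤ 0 := by
    intro e he
    by_cases h : (a e ∈ F ↔ b e ∈ F)
    · rw [hsame e h]
    · rw [hdiff e h, hYd e he h]
      have := hY e he
      linarith
  have hTle : ∀ e ∈ T, e ∉ Y → D e ≤ 2 * ε := by
    intro e he hn
    by_cases h : (a e ∈ F ↔ b e ∈ F)
    · rw [hsame e h]; positivity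
    · rw [hdiff e h]
      have h1 := hε e he hn
      have h2 := neg_abs_le (J e)
      have h3 := le_abs_self (J e)
      rcases pm (a e) with h4 | h4 <;> rcases pm (b e) with h5 | h5 <;> rw [h4, h5] <;> linarith
  have hYT : Y ⊆ T := fun e he => hT e ⟨e, he, Or.inl rfl⟩
  have key : ∑ e ∈ T, D e < 0 := by
    have e1 : ∑ e ∈ T, D e = ∑ e ∈ T \ Y, D e + ∑ e ∈ Y, D e := (sum_sdiff hYT).symm
    have e2 : ∑ e ∈ Y, D e ≤ D e₀ := by
      rw [← add_sum_erase Y D he₀]
      have : ∑ e ∈ Y.erase e₀, D e ≤ 0 := sum_nonpos fun e he => hYle e (mem_of_mem_erase he)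
      linarith
    have e3 : D e₀ = -2 * J e₀ := by
      rw [hdiff e₀ he₀d, hYd e₀ he₀ he₀d]; ring
    have e4 : ∑ e ∈ T \ Y, D e ≤ ∑ _e ∈ T \ Y, 2 * ε :=
      sum_le_sum fun e he => hTle e (mem_sdiff.1 he).1 (mem_sdiff.1 he).2
    have e5 : ∑ _e ∈ T \ Y, 2 * ε ≤ (T.card : ℝ) * (2 * ε) := by
      rw [sum_const, nsmul_eq_mul]
      apply mul_le_mul_of_nonneg_right _ (by positivity)
      exact_mod_cast card_le_card sdiff_subset
    have e6 := hY e₀ he₀
    nlinarith
  have hfin : {x | ρ x ≠ σ x}.Finite := by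
    apply F.finite_toSet.subset
    intro x hx
    by_contra h
    exact hx (hρN x h)
  have hρσ : ρ ≠ σ := by
    obtain ⟨x, hx⟩ := hFne
    intro h
    have h1 := congrFun h x
    rw [hρF x hx] at h1
    rcases pm x with h2 | h2 <;> rw [h2] at h1 <;> norm_num at h1
  have hρpm : Cf Set.univ ρ := by
    refine ⟨fun x _ => ?_, fun x hx => absurd (Set.mem_univ x) hx⟩
    by_cases h : x ∈ F
    · rw [hρF x h]
      rcases pm x with h2 | h2 <;> simp [h2]
    · rw [hρN x h]; exact pm x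
  have h1 := hσ.2 ρ hρpm hfin hρσ
  rw [finsum_eq_sum_of_support_subset (s := T)] at h1
  · exact absurd h1 (not_lt.2 key.le)
  · intro e he
    rw [Function.mem_support] at he
    by_contra h
    exact he (hD0 e h)

end Pool.Agent.Q248.GS
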