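import Pool.Agent.Q248.GS.Sphere

/-!
# Infinitely many of a sequence of disjoint window events occur
-/

set_option autoImplicit false

open Finset MeasureTheory ProbabilityTheory

namespace Pool.Agent.Q248.GS

theorem often {B : Type} (μ : Measure ℝ) [IsProbabilityMeasure μ]
    (T : ℕ → Finset B) (hT : ∀ k l, k ≠ l → Disjoint (T k) (T l)) (t : ℕ → B → Set ℝ)
    (ht : ∀ k e, MeasurableSet (t k e)) (hsum : ∑' k, ∏ e ∈ T k, μ (t k e) = ⊤) :
    ∀ᵐ J ∂(Measure.infinitePi fun _ : B => μ), ∃ᶠ k in Filter.atTop, ∀ e ∈ T k, J e ∈ t k e := by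
  classical
  set P : Measure (B → ℝ) := Measure.infinitePi fun _ : B => μ with hP
  set w : B → Set ℝ := fun e => if h : ∃ k, e ∈ T k then t h.choose e else Set.univ with hw
  have hwm : ∀ e, MeasurableSet (w e) := by
    intro e
    simp only [hw]
    split_ifs with h
    · exact ht _ _
    · exact MeasurableSet.univ
  have hwk : ∀ k, ∀ e ∈ T k, w e = t k e := by
    intro k e he
    have h : ∃ k, e ∈ T k := ⟨k, he⟩
    simp only [hw, h, dif_pos]
    have h1 := h.choose_spec
    by_cases h2 : h.choose = k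
    · rw [h2]
    · exact absurd he (disjoint_left.1 (hT _ _ h2) h1)
  set A : ℕ → Set (B → ℝ) := fun k => {J | ∀ e ∈ T k, J e ∈ t k e} with hA
  have hset : ∀ k, A k = Set.pi (T k : Set B) w := by
    intro k
    ext J
    simp only [hA, Set.mem_ofPred_eq, Set.mem_pi, Finset.mem_coe]
    exact forall₂_congr fun e he => by rw [hwk k e he]
  have hmeas : ∀ k, MeasurableSet (A k) := by
    intro k
    rw [hset]
    exact MeasurableSet.pi (T k).countable_toSet fun e _ => hwm e
  have hval : ∀ k, P (A k) = ∏ e ∈ T k, μ (t k e) := by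
    intro k
    rw [hset, hP, Measure.infinitePi_pi _ (fun e _ => hwm e)]
    exact prod_congr rfl fun e he => by rw [hwk k e he]
  have hind : iIndepSet A P := by
    rw [iIndepSet_iff_meas_biInter hmeas]
    intro S
    have hinter : (⋂ k ∈ S, A k) = Set.pi ((S.biUnion T : Finset B) : Set B) w := by
      ext J
      simp only [Set.mem_iInter, hset, Set.mem_pi, Finset.coe_biUnion, Set.mem_iUnion,
        Finset.mem_coe]
      constructor
      · rintro h e ⟨k, hk, he⟩
        exact h k hk e he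
      · intro h k hk e he
        exact h e ⟨k, hk, he⟩
    rw [hinter, hP, Measure.infinitePi_pi _ (fun e _ => hwm e), Finset.prod_biUnion]
    · refine Finset.prod_congr rfl fun k _ => ?_
      rw [hset, Measure.infinitePi_pi _ (fun e _ => hwm e)]
    · intro k _ l _ hkl
      exact hT k l hkl
  have hlim := measure_limsup_eq_one (μ := P) (s := A) hmeas hind (by
    rw [← hsum]
    exact tsum_congr hval)
  have h2 : ∀ᵐ J ∂P, J ∈ Filter.limsup A Filter.atTop := by
    rw [← prob_compl_eq_zero_iff₀] at hlim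
    · exact hlim
    · exact (MeasurableSet.measurableSet_limsup hmeas).nullMeasurableSet
  filter_upwards [h2] with J hJ
  rw [Filter.limsup_eq_iInf_iSup_of_nat] at hJ
  rw [Filter.frequently_atTop]
  intro a
  simp only [Set.iInf_eq_iInter, Set.iSup_eq_iUnion, Set.mem_iInter, Set.mem_iUnion] at hJ
  obtain ⟨b, hb, hJb⟩ := hJ a
  exact ⟨b, hb, hJb⟩

open Pool.Agent.TH761.EB

variable {d : ℕ}

lemma glue {σ τ : (Fin d → ℤ) → ℝ} (hσ : ∀ x, σ x = 1 ∨ σ x = -1)
    (h : ∃ᶠ r in Filter.atTop, ∃ s : ℝ, (s = 1 ∨ s = -1) ∧ ∀ x, Ball r x → σ x = s * τ x) :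
    τ = σ ∨ τ = -σ := by
  rw [Filter.frequently_atTop] at h
  obtain ⟨r1, -, s, hs, h1⟩ := h 0
  have hall : ∀ x, σ x = s * τ x := by
    intro x
    obtain ⟨r, hr, s', hs', h2⟩ := h (univ.sup fun i => (x i).natAbs)
    have hx : Ball r x := by
      intro i
      have h3 : (x i).natAbs ≤ r :=
        (Finset.le_sup (f := fun i => (x i).natAbs) (mem_univ i)).trans hr
      rw [Int.abs_eq_natAbs]
      exact_mod_cast h3
    have h0 : ∀ r, Ball r (0 : Fin d → ℤ) := fun r i => by simp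
    have e1 := h1 0 (h0 r1)
    have e2 := h2 0 (h0 r)
    have e3 : s = s' := by
      have h4 : τ 0 ≠ 0 := by
        intro h5
        rw [h5, mul_zero] at e1
        rcases hσ 0 with h6 | h6 <;> rw [h6] at e1 <;> norm_num at e1
      exact mul_right_cancel₀ h4 (e1.symm.trans e2)
    rw [e3]
    exact h2 x hx
  rcases hs with rfl | rfl
  · left
    ext x
    rw [hall x, one_mul]
  · right
    ext x
    rw [Pi.neg_apply, hall x]
    ring

lemma sph_close {r r' : ℕ} {x y : Fin d → ℤ} (hx : Sph r x) (hy : Sph r' y)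
    (h : ∀ k, |x k - y k| ≤ 1) : r' ≤ r + 1 := by
  obtain ⟨i, hi⟩ := hy.2
  have h1 := hx.1 i
  have h2 := h i
  have h3 : |y i| ≤ |x i| + |x i - y i| := by
    have := abs_sub_abs_le_abs_sub (y i) (x i)
    rw [abs_sub_comm (y i) (x i)] at this
    linarith
  have h4 : (r' : ℤ) ≤ r + 1 := by rw [← hi]; linarith
  exact_mod_cast h4

lemma bond_close (e : (Fin d → ℤ) × Fin d) (k : Fin d) : |aa e k - bb e k| ≤ 1 := by
  simp only [aa, bb, Pi.add_apply]
  by_cases h : k = e.2
  · subst h; simp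
  · rw [Pi.single_eq_of_ne h]; simp

lemma touch_close {r r' : ℕ} {Y Y' : Finset ((Fin d → ℤ) × Fin d)}
    (hY : ∀ e ∈ Y, Sph r (aa e) ∧ Sph r (bb e)) (hY' : ∀ e ∈ Y', Sph r' (aa e) ∧ Sph r' (bb e))
    {e : (Fin d → ℤ) × Fin d} (he : e ∈ touch Y) (he' : e ∈ touch Y') : r' ≤ r + 1 := by
  rw [mem_touch] at he he'
  obtain ⟨f, hf, h⟩ := he
  obtain ⟨f', hf', h'⟩ := he'
  have a1 : Sph r (aa e) ∨ Sph r (bb e) := by
    rcases h with h | h | h | h
    · left; rw [h]; exact (hY f hf).1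
    · left; rw [h]; exact (hY f hf).2
    · right; rw [h]; exact (hY f hf).1
    · right; rw [h]; exact (hY f hf).2
  have a2 : Sph r' (aa e) ∨ Sph r' (bb e) := by
    rcases h' with h | h | h | h
    · left; rw [h]; exact (hY' f' hf').1
    · left; rw [h]; exact (hY' f' hf').2
    · right; rw [h]; exact (hY' f' hf').1
    · right; rw [h]; exact (hY' f' hf').2
  rcases a1 with a1 | a1 <;> rcases a2 with a2 | a2
  · exact sph_close a1 a2 (fun k => by simp)
  · exact sph_close a1 a2 (bond_close e)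
  · exact sph_close a1 a2 (fun k => by rw [abs_sub_comm]; exact bond_close e k)
  · exact sph_close a1 a2 (fun k => by simp)

lemma prod_ge {B : Type} (μ : Measure ℝ) [IsProbabilityMeasure μ] (Y T : Finset B) (hYT : Y ⊆ T)
    (M N : ℕ) (hM : Y.card ≤ M) (hN : T.card ≤ N) (U V : Set ℝ) [DecidableEq B] :
    μ U ^ M * μ V ^ N ≤ ∏ e ∈ T, μ (if e ∈ Y then U else V) := by
  rw [← prod_sdiff hYT, mul_comm]
  apply mul_le_mul'
  · calc μ V ^ N ≤ μ V ^ (T \ Y).card :=
        pow_le_pow_right_of_le_one' prob_le_one ((card_le_card sdiff_subset).trans hN)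
      _ = ∏ _e ∈ T \ Y, μ V := by rw [prod_const]
      _ ≤ _ := prod_le_prod' fun e he => by rw [if_neg (mem_sdiff.1 he).2]
  · calc μ U ^ M ≤ μ U ^ Y.card := pow_le_pow_right_of_le_one' prob_le_one hM
      _ = ∏ _e ∈ Y, μ U := by rw [prod_const]
      _ ≤ _ := prod_le_prod' fun e he => by rw [if_pos he]

theorem walls (hd : 2 ≤ d) (μ : Measure ℝ) [IsProbabilityMeasure μ]
    (Y : Set ((Fin d → ℤ) × Fin d)) (r M : ℕ → ℕ) (ε : ℕ → ℝ) (hr : ∀ k, r k + 2 ≤ r (k + 1))
    (hε : ∀ k, 0 ≤ ε k)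
    (hM : ∀ k, {e | e ∈ Y ∧ Sph (r k) (aa e) ∧ Sph (r k) (bb e)}.ncard ≤ M k)
    (hsum : ∑' k, μ (Set.Ioi ((4 * d * M k : ℕ) * ε k)) ^ M k *
      μ (Set.Icc (-ε k) (ε k)) ^ (4 * d * M k) = ⊤) :
    ∀ᵐ J ∂(Measure.infinitePi fun _ : (Fin d → ℤ) × Fin d => μ), ∀ σ τ : (Fin d → ℤ) → ℝ,
      GS aa bb Set.univ J σ → GS aa bb Set.univ J τ →
      (∀ e, σ (aa e) * σ (bb e) ≠ τ (aa e) * τ (bb e) → e ∈ Y) → τ = σ ∨ τ = -σ := by
  classical
  have hfin : ∀ k, {e | e ∈ Y ∧ Sph (r k) (aa e) ∧ Sph (r k) (bb e)}.Finite := by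
    intro k
    have h1 : ({x : Fin d → ℤ | Sph (r k) x} ×ˢ (Set.univ : Set (Fin d))).Finite := by
      apply Set.Finite.prod _ Set.finite_univ
      apply (Set.finite_Icc (fun _ : Fin d => -(r k : ℤ)) (fun _ => (r k : ℤ))).subset
      intro x hx
      rw [Set.mem_Icc, Pi.le_def, Pi.le_def]
      exact ⟨fun i => (abs_le.1 (hx.1 i)).1, fun i => (abs_le.1 (hx.1 i)).2⟩
    apply h1.subset
    rintro e ⟨_, h, _⟩
    exact ⟨h, Set.mem_univ _⟩
  set Yk : ℕ → Finset ((Fin d → ℤ) × Fin d) := fun k => (hfin k).toFinset with hYk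
  have memYk : ∀ k e, e ∈ Yk k ↔ e ∈ Y ∧ Sph (r k) (aa e) ∧ Sph (r k) (bb e) := by
    intro k e
    simp only [hYk, Set.Finite.mem_toFinset, Set.mem_ofPred_eq]
  have hcard : ∀ k, (Yk k).card ≤ M k := by
    intro k
    simp only [hYk]
    rw [← Set.ncard_eq_toFinset_card _ (hfin k)]
    exact hM k
  have hmono : ∀ k l, k < l → r k + 2 ≤ r l := by
    intro k l hkl
    induction l with
    | zero => omega
    | succ l ih =>
      have := hr l
      rcases Nat.lt_succ_iff_lt_or_eq.1 hkl with h | h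
      · have := ih h; omega
      · subst h; exact this
  have hdisj : ∀ k l, k ≠ l → Disjoint (touch (Yk k)) (touch (Yk l)) := by
    intro k l hkl
    rw [disjoint_left]
    intro e he he'
    have hk : ∀ m, ∀ e ∈ Yk m, Sph (r m) (aa e) ∧ Sph (r m) (bb e) :=
      fun m e he => ((memYk m e).1 he).2
    rcases lt_or_gt_of_ne hkl with h | h
    · have h1 := touch_close (hk k) (hk l) he he'
      have h2 := hmono k l h
      omega
    · have h1 := touch_close (hk l) (hk k) he' he
      have h2 := hmono l k h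
      omega
  have hev := often μ (fun k => touch (Yk k)) hdisj
    (fun k e => if e ∈ Yk k then Set.Ioi ((4 * d * M k : ℕ) * ε k) else Set.Icc (-ε k) (ε k))
    (fun k e => by split_ifs; exacts [measurableSet_Ioi, measurableSet_Icc])
    (by
      rw [eq_top_iff, ← hsum]
      apply ENNReal.tsum_le_tsum
      intro k
      exact prod_ge μ (Yk k) (touch (Yk k))
        (fun e he => mem_touch.2 ⟨e, he, Or.inl rfl⟩) (M k) (4 * d * M k) (hcard k)
        ((card_touch _).trans (Nat.mul_le_mul_left _ (hcard k))) _ _)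
  filter_upwards [hev] with J hJ σ τ hσ hτ hdis
  apply glue (fun x => hσ.1.1 x (Set.mem_univ x))
  have htend : Filter.Tendsto r Filter.atTop Filter.atTop := by
    apply StrictMono.tendsto_atTop
    exact strictMono_nat_of_lt_succ fun k => by have := hr k; omega
  apply htend.frequently
  refine hJ.mono fun k hk => ?_
  refine ball_agree hd hσ hτ (r k) (Yk k) (A := (4 * d * M k : ℕ) * ε k) (ε := ε k) (hε k)
    ?_ ?_ ?_ ?_
  · intro e he
    have h1 := hk e (mem_touch.2 ⟨e, he, Or.inl rfl⟩)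
    rw [if_pos he] at h1
    exact h1
  · intro e he hn
    have h1 := hk e he
    rw [if_neg hn] at h1
    exact abs_le.2 h1
  · apply mul_le_mul_of_nonneg_right _ (hε k)
    exact_mod_cast Nat.mul_le_mul_left _ (hcard k)
  · intro e h1 h2 hn
    by_contra hne
    exact hn ((memYk k e).2 ⟨hdis e hne, h1, h2⟩)

end Pool.Agent.Q248.GS
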