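import Pool.Agent.Q248.GS.Flat

/-!
# Spheres of the maximum norm in `ℤ^d`, and the comparison of two ground states
-/

set_option autoImplicit false

open Finset

namespace Pool.Agent.Q248.GS

open Pool.Agent.TH761.EB

variable {d : ℕ}

/-- the first end of a bond -/
def aa (e : (Fin d → ℤ) × Fin d) : Fin d → ℤ := e.1

/-- the second end of a bond -/
def bb (e : (Fin d → ℤ) × Fin d) : Fin d → ℤ := e.1 + (Pi.single e.2 (1 : ℤ) : Fin d → ℤ)

/-- the ball of the maximum norm -/
def Ball (r : ℕ) (x : Fin d → ℤ) : Prop := ∀ i, |x i| ≤ (r : ℤ)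

/-- the sphere of the maximum norm -/
def Sph (r : ℕ) (x : Fin d → ℤ) : Prop := (∀ i, |x i| ≤ (r : ℤ)) ∧ ∃ i, |x i| = (r : ℤ)

lemma bb_upd (x : Fin d → ℤ) (j : Fin d) (u : ℤ) :
    bb (Function.update x j u, j) = Function.update x j (u + 1) := by
  ext k
  simp only [bb, Pi.add_apply]
  by_cases h : k = j
  · subst h; simp
  · simp [h]

lemma sph_upd {r : ℕ} {x : Fin d → ℤ} (hx : ∀ k, |x k| ≤ (r : ℤ)) {i j : Fin d} (hi : |x i| = (r : ℤ))
    (hij : j ≠ i) {u : ℤ} (hu : |u| ≤ (r : ℤ)) : Sph r (Function.update x j u) := by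
  refine ⟨fun k => ?_, i, ?_⟩
  · by_cases h : k = j
    · subst h; simpa using hu
    · simpa [h] using hx k
  · rw [Function.update_of_ne (Ne.symm hij)]; exact hi

variable {r : ℕ} {f : (Fin d → ℤ) → ℝ}

lemma move_aux (hf : ∀ e : (Fin d → ℤ) × Fin d, Sph r (aa e) → Sph r (bb e) → f (aa e) = f (bb e))
    {x : Fin d → ℤ} (hx : ∀ k, |x k| ≤ (r : ℤ)) {i j : Fin d} (hi : |x i| = (r : ℤ))
    (hij : j ≠ i) (n : ℕ) (u : ℤ) (hu : |u| ≤ (r : ℤ)) (hun : |u + n| ≤ (r : ℤ)) :
    f (Function.update x j u) = f (Function.update x j (u + n)) := by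
  induction n with
  | zero => simp
  | succ m ih =>
    have h1 : |u + m| ≤ (r : ℤ) := by
      rw [abs_le] at hu hun ⊢
      push_cast at hun
      constructor <;> omega
    rw [ih h1]
    have h2 := hf (Function.update x j (u + m), j) (by
      show Sph r (Function.update x j (u + m))
      exact sph_upd hx hi hij h1) (by
      rw [bb_upd]
      refine sph_upd hx hi hij ?_
      push_cast at hun
      rw [add_assoc]; exact hun)
    rw [bb_upd] at h2
    have h3 : f (aa (Function.update x j (u + (m : ℤ)), j)) = f (Function.update x j (u + m)) := rfl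
    rw [← h3, h2]
    push_cast
    rw [add_assoc]

lemma move (hf : ∀ e : (Fin d → ℤ) × Fin d, Sph r (aa e) → Sph r (bb e) → f (aa e) = f (bb e))
    {x : Fin d → ℤ} (hx : ∀ k, |x k| ≤ (r : ℤ)) {i j : Fin d} (hi : |x i| = (r : ℤ))
    (hij : j ≠ i) (u v : ℤ) (hu : |u| ≤ (r : ℤ)) (hv : |v| ≤ (r : ℤ)) :
    f (Function.update x j u) = f (Function.update x j v) := by
  rcases le_total u v with h | h
  · obtain ⟨n, hn⟩ := Int.eq_ofNat_of_zero_le (sub_nonneg.2 h)
    have e : v = u + n := by omega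
    rw [e] at hv ⊢
    exact move_aux hf hx hi hij n u hu hv
  · obtain ⟨n, hn⟩ := Int.eq_ofNat_of_zero_le (sub_nonneg.2 h)
    have e : u = v + n := by omega
    rw [e] at hu ⊢
    exact (move_aux hf hx hi hij n v hv hu).symm

lemma to_axis (hf : ∀ e : (Fin d → ℤ) × Fin d, Sph r (aa e) → Sph r (bb e) → f (aa e) = f (bb e))
    {x : Fin d → ℤ} (hx : ∀ k, |x k| ≤ (r : ℤ)) {i : Fin d} (hi : |x i| = (r : ℤ)) :
    f x = f (Pi.single i (x i)) := by
  classical
  have key : ∀ s : Finset (Fin d), i ∉ s → f x = f (fun k => if k ∈ s then 0 else x k) := by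
    intro s
    induction s using Finset.induction with
    | empty => intro _; simp
    | insert j s hj ih =>
      intro hi'
      rw [mem_insert, not_or] at hi'
      rw [ih hi'.2]
      set y : Fin d → ℤ := fun k => if k ∈ s then 0 else x k with hy
      have hyb : ∀ k, |y k| ≤ (r : ℤ) := by
        intro k
        simp only [hy]
        split_ifs
        · simp
        · exact hx k
      have hyi : |y i| = (r : ℤ) := by simp only [hy, hi'.2, if_false]; exact hi
      have h1 := move hf hyb hyi (Ne.symm hi'.1) (y j) 0 (hyb j) (by simp)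
      rw [Function.update_eq_self] at h1
      rw [h1]
      congr 1
      ext k
      by_cases h : k = j
      · subst h; simp
      · simp [h, hy]
  rw [key (univ.erase i) (by simp)]
  congr 1
  ext k
  by_cases h : k = i
  · subst h; simp
  · simp [h]

lemma axis_axis (hf : ∀ e : (Fin d → ℤ) × Fin d, Sph r (aa e) → Sph r (bb e) → f (aa e) = f (bb e))
    {i j : Fin d} (hij : i ≠ j) {u v : ℤ} (hu : |u| = (r : ℤ)) (hv : |v| = (r : ℤ)) :
    f (Pi.single i u) = f (Pi.single j v) := by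
  have h0 : ∀ (i : Fin d) (u : ℤ), |u| = (r : ℤ) → ∀ k, |(Pi.single i u : Fin d → ℤ) k| ≤ (r : ℤ) := by
    intro i u hu k
    by_cases h : k = i
    · subst h; simp [hu]
    · simp [h]
  have h1 := move hf (x := (Pi.single i u : Fin d → ℤ)) (h0 i u hu) (i := i) (j := j) (by simp [hu])
    (Ne.symm hij) ((Pi.single i u : Fin d → ℤ) j) v (h0 i u hu j) hv.le
  have h2 := move hf (x := (Pi.single j v : Fin d → ℤ)) (h0 j v hv) (i := j) (j := i) (by simp [hv])
    hij ((Pi.single j v : Fin d → ℤ) i) u (h0 j v hv i) hu.le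
  rw [Function.update_eq_self] at h1 h2
  rw [h1, h2]
  congr 1
  ext k
  by_cases h : k = i
  · subst h; simp [hij]
  · by_cases h' : k = j
    · subst h'; simp [h]
    · simp [h, h']

theorem conn (hd : 2 ≤ d)
    (hf : ∀ e : (Fin d → ℤ) × Fin d, Sph r (aa e) → Sph r (bb e) → f (aa e) = f (bb e))
    {x y : Fin d → ℤ} (hx : Sph r x) (hy : Sph r y) : f x = f y := by
  obtain ⟨hx, i, hi⟩ := hx
  obtain ⟨hy, j, hj⟩ := hy
  rw [to_axis hf hx hi, to_axis hf hy hj]
  by_cases h : i = j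
  · subst h
    obtain ⟨k, hk⟩ : ∃ k : Fin d, k ≠ i := by
      have : Nontrivial (Fin d) := Fin.nontrivial_iff_two_le.2 hd
      exact exists_ne i
    rw [axis_axis hf (Ne.symm hk) hi (v := (r : ℤ)) (by simp),
      axis_axis hf (Ne.symm hk) hj (v := (r : ℤ)) (by simp)]
  · exact axis_axis hf h hi hj

/-- the bonds that touch a site -/
def nb (x : Fin d → ℤ) : Finset ((Fin d → ℤ) × Fin d) :=
  univ.image (fun i => (x, i)) ∪ univ.image (fun i => (x - (Pi.single i (1 : ℤ) : Fin d → ℤ), i))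

lemma mem_nb {x : Fin d → ℤ} {e : (Fin d → ℤ) × Fin d} : e ∈ nb x ↔ aa e = x ∨ bb e = x := by
  unfold nb aa bb
  rw [mem_union, mem_image, mem_image]
  constructor
  · rintro (⟨i, _, rfl⟩ | ⟨i, _, rfl⟩)
    · left; rfl
    · right; simp
  · rintro (h | h)
    · left; exact ⟨e.2, mem_univ _, by rw [← h]⟩
    · right; exact ⟨e.2, mem_univ _, by rw [← h]; simp⟩

lemma card_nb (x : Fin d → ℤ) : (nb x).card ≤ 2 * d := by
  unfold nb
  refine (card_union_le _ _).trans ?_
  have h1 := card_image_le (s := (univ : Finset (Fin d))) (f := fun i => (x, i))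
  have h2 := card_image_le (s := (univ : Finset (Fin d)))
    (f := fun i => (x - (Pi.single i (1 : ℤ) : Fin d → ℤ), i))
  rw [card_univ, Fintype.card_fin] at h1 h2
  omega

/-- the bonds that touch the ends of the bonds of `Y` -/
def touch (Y : Finset ((Fin d → ℤ) × Fin d)) : Finset ((Fin d → ℤ) × Fin d) :=
  (Y.image aa ∪ Y.image bb).biUnion nb

lemma mem_touch {Y : Finset ((Fin d → ℤ) × Fin d)} {e : (Fin d → ℤ) × Fin d} :
    e ∈ touch Y ↔ ∃ f ∈ Y, aa e = aa f ∨ aa e = bb f ∨ bb e = aa f ∨ bb e = bb f := by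
  unfold touch
  rw [mem_biUnion]
  constructor
  · rintro ⟨x, hx, he⟩
    rw [mem_nb] at he
    rw [mem_union, mem_image, mem_image] at hx
    rcases hx with ⟨f, hf, rfl⟩ | ⟨f, hf, rfl⟩
    · exact ⟨f, hf, by tauto⟩
    · exact ⟨f, hf, by tauto⟩
  · rintro ⟨f, hf, h | h | h | h⟩
    · exact ⟨aa f, mem_union_left _ (mem_image_of_mem _ hf), mem_nb.2 (Or.inl h)⟩
    · exact ⟨bb f, mem_union_right _ (mem_image_of_mem _ hf), mem_nb.2 (Or.inl h)⟩
    · exact ⟨aa f, mem_union_left _ (mem_image_of_mem _ hf), mem_nb.2 (Or.inr h)⟩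
    · exact ⟨bb f, mem_union_right _ (mem_image_of_mem _ hf), mem_nb.2 (Or.inr h)⟩

lemma card_touch (Y : Finset ((Fin d → ℤ) × Fin d)) : (touch Y).card ≤ 4 * d * Y.card := by
  unfold touch
  refine (card_biUnion_le_card_mul _ _ (2 * d) fun x _ => card_nb x).trans ?_
  have h := card_union_le (Y.image aa) (Y.image bb)
  have h1 := card_image_le (s := Y) (f := aa)
  have h2 := card_image_le (s := Y) (f := bb)
  calc (Y.image aa ∪ Y.image bb).card * (2 * d) ≤ (2 * Y.card) * (2 * d) :=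
        Nat.mul_le_mul_right _ (by omega)
    _ = 4 * d * Y.card := by ring

lemma pm_four {u v w z : ℝ} (hu : u = 1 ∨ u = -1) (hv : v = 1 ∨ v = -1) (hw : w = 1 ∨ w = -1)
    (hz : z = 1 ∨ z = -1) (h : u * v = w * z) : u * w = v * z := by
  rcases hu with rfl | rfl <;> rcases hv with rfl | rfl <;> rcases hw with rfl | rfl <;>
    rcases hz with rfl | rfl <;> first | (norm_num; done) | (exfalso; norm_num at h)

/-- two configurations which disagree on the sphere only on strong bonds agree on the ball -/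
theorem ball_agree (hd : 2 ≤ d) {J : (Fin d → ℤ) × Fin d → ℝ} {σ τ : (Fin d → ℤ) → ℝ}
    (hσ : GS aa bb Set.univ J σ) (hτ : GS aa bb Set.univ J τ) (r : ℕ)
    (Y : Finset ((Fin d → ℤ) × Fin d)) {A ε : ℝ} (hε0 : 0 ≤ ε) (hY : ∀ e ∈ Y, A < J e)
    (hε : ∀ e ∈ touch Y, e ∉ Y → |J e| ≤ ε) (hA : (4 * d * Y.card : ℕ) * ε ≤ A)
    (hdis : ∀ e, Sph r (aa e) → Sph r (bb e) → e ∉ Y → σ (aa e) * σ (bb e) = τ (aa e) * τ (bb e)) :
    ∃ s : ℝ, (s = 1 ∨ s = -1) ∧ ∀ x, Ball r x → σ x = s * τ x := by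
  have pσ : ∀ x, σ x = 1 ∨ σ x = -1 := fun x => hσ.1.1 x (Set.mem_univ x)
  have pτ : ∀ x, τ x = 1 ∨ τ x = -1 := fun x => hτ.1.1 x (Set.mem_univ x)
  have hA' : ((touch Y).card : ℝ) * ε ≤ A := by
    refine le_trans ?_ hA
    apply mul_le_mul_of_nonneg_right _ hε0
    exact_mod_cast card_touch Y
  have hf : ∀ e : (Fin d → ℤ) × Fin d, Sph r (aa e) → Sph r (bb e) →
      σ (aa e) * τ (aa e) = σ (bb e) * τ (bb e) := by
    intro e h1 h2
    by_cases he : e ∈ Y
    · have a1 := flat hσ Y (touch Y) (fun e h => mem_touch.2 h) hε0 hY hε hA' e he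
      have a2 := flat hτ Y (touch Y) (fun e h => mem_touch.2 h) hε0 hY hε hA' e he
      exact pm_four (pσ _) (pσ _) (pτ _) (pτ _) (by rw [a1, a2])
    · exact pm_four (pσ _) (pσ _) (pτ _) (pτ _) (hdis e h1 h2 he)
  -- a point of the sphere
  have hne : Nonempty (Fin d) := ⟨⟨0, by omega⟩⟩
  set x₀ : Fin d → ℤ := Pi.single ⟨0, by omega⟩ (r : ℤ) with hx₀
  have hS0 : Sph r x₀ := by
    refine ⟨fun k => ?_, ⟨0, by omega⟩, by simp [hx₀]⟩
    by_cases h : k = ⟨0, by omega⟩
    · subst h; simp [hx₀]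
    · simp [hx₀, h]
  set s : ℝ := σ x₀ * τ x₀ with hs
  have hs1 : s = 1 ∨ s = -1 := by
    rcases pσ x₀ with h1 | h1 <;> rcases pτ x₀ with h2 | h2 <;> rw [hs, h1, h2] <;> norm_num
  have hsph : ∀ x, Sph r x → σ x = s * τ x := by
    intro x hx
    have h1 : σ x * τ x = s := conn (f := fun x => σ x * τ x) hd hf hx hS0
    rw [← h1]
    rcases pτ x with h2 | h2 <;> rw [h2] <;> ring
  refine ⟨s, hs1, ?_⟩
  have hfin : (Set.univ ∩ {x : Fin d → ℤ | Ball r x}).Finite := by
    rw [Set.univ_inter]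
    have : {x : Fin d → ℤ | Ball r x} = Set.Icc (fun _ => -(r : ℤ)) (fun _ => (r : ℤ)) := by
      ext x
      simp only [Ball, Set.mem_ofPred_eq, Set.mem_Icc, Pi.le_def, abs_le]
      exact ⟨fun h => ⟨fun i => (h i).1, fun i => (h i).2⟩, fun h i => ⟨h.1 i, h.2 i⟩⟩
    rw [this]
    exact Set.finite_Icc _ _
  apply agree hσ hτ hs1 (Λ := {x | Ball r x}) hfin
  · intro e h1 h2
    apply hsph
    refine ⟨h1, ?_⟩
    by_contra hcon
    push Not at hcon
    apply h2
    intro k
    have h3 := h1 k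
    have h4 := hcon k
    simp only [bb, Pi.add_apply]
    by_cases h : k = e.2
    · subst h
      simp only [Pi.single_eq_same]
      simp only [aa] at h3 h4
      rw [abs_le] at h3 ⊢
      have h5 : e.1 e.2 ≠ (r : ℤ) := by
        intro h6
        apply h4
        rw [h6]
        simp
      constructor <;> omega
    · rw [Pi.single_eq_of_ne h, add_zero]; exact h3
  · intro e h1 h2
    apply hsph
    refine ⟨h1, ?_⟩
    by_contra hcon
    push Not at hcon
    apply h2
    intro k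
    have h3 := h1 k
    have h4 := hcon k
    simp only [bb, Pi.add_apply] at h3 h4
    by_cases h : k = e.2
    · subst h
      simp only [Pi.single_eq_same] at h3 h4
      simp only [aa]
      rw [abs_le] at h3 ⊢
      have h5 : e.1 e.2 + 1 ≠ -(r : ℤ) := by
        intro h6
        apply h4
        rw [h6]
        simp
      constructor <;> omega
    · rw [Pi.single_eq_of_ne h, add_zero] at h3; exact h3

end Pool.Agent.Q248.GS
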